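import Pool.Agent.Helper4.NuThree

/-- There are infinitely many maximal (nu_3, 2)-progressions. -/
theorem Pool.Agent.Results.MP_c222f6_nt.NuThreeInfinite.result :
    {p : ℕ × ℕ | Helper4.Nu.IsMaxProg 3 2 p.1 p.2}.Infinite :=
  Helper4.Nu.infinite_max 3 2
    (fun j h2 h3 hns => Helper4.Nu.nu_three_dvd j h2 h3 hns) Helper4.Nu.nu_three_six_one
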